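import Pool.Agent.Lib.MP_b5021c_nt.IfaceSF
import Pool.Agent.Lib.MP_b5021c_nt.E.H29.C1h

/-!
# MP_b5021c_nt, row SF_CZA (helper98): existence of the function `C₁`

For `τ < 1` the polynomial `q + τ z f` has one zero `a` in the disc and none on the circle; the
minimum principle gives `Re C₁ ≥ 0`.  Limit `τ → 1`.
-/

namespace Pool.Agent.B5.H98.Cza

open Polynomial Pool.Agent.B5 Filter Topology Metric
open Pool.Agent.MP_b5021c_nt (nz ZcoS)
open Pool.Agent.B5.H29 (zco_aff nz_mul' nz_XsubC ZF_of_nz circ_inv)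

theorem cpz_conj (p : ℤ[X]) (z : ℂ) :
    (cpz p).eval ((starRingEnd ℂ) z) = (starRingEnd ℂ) ((cpz p).eval z) := by
  have h1 : (starRingEnd ℂ).comp (Coef.emb : ℤ →+* ℂ) = (Coef.emb : ℤ →+* ℂ) :=
    RingHom.ext_int _ _
  unfold cpz
  rw [eval_map, eval_map, hom_eval₂, h1]

/-- The values of `q + τ z f` on the circle. -/
theorem ne_circ {q f : ℤ[X]} (h : LDz q f) {t : ℝ} (ht0 : 0 ≤ t) (ht : t < 1) {z : ℂ}
    (hz : ‖z‖ = 1) : (cpz q).eval z + t * (z * (cpz f).eval z) ≠ 0 := by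
  intro h0
  have h1 : (cpz q).eval z = -(t * (z * (cpz f).eval z)) := by linear_combination h0
  have h2 := congrArg norm h1
  rw [norm_neg, norm_mul, norm_mul, hz, one_mul, Complex.norm_real, Real.norm_eq_abs,
    abs_of_nonneg ht0] at h2
  have h3 := h.le z hz
  have h4 : 0 < ‖(cpz q).eval z‖ := norm_pos_iff.mpr (h.qc z hz)
  nlinarith

/-- The minimum principle. -/
theorem minp (S W : ℂ[X]) (hS : ∀ z : ℂ, ‖z‖ ≤ 1 → S.eval z ≠ 0) (a : ℝ)
    (hc : ∀ z : ℂ, ‖z‖ = 1 → 0 ≤ ((a : ℂ) * W.eval z * (starRingEnd ℂ) (S.eval z)).re) :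
    ∀ z : ℂ, ‖z‖ < 1 → 0 ≤ ((a : ℂ) * W.eval z * (starRingEnd ℂ) (S.eval z)).re := by
  have key : ∀ z : ℂ, ‖z‖ ≤ 1 → ((a : ℂ) * W.eval z * (starRingEnd ℂ) (S.eval z)).re =
      ((a : ℂ) * W.eval z / S.eval z).re * ‖S.eval z‖ ^ 2 := by
    intro z hz
    have hz1 := hS z hz
    have h2 : (a : ℂ) * W.eval z * (starRingEnd ℂ) (S.eval z) =
        ((‖S.eval z‖ ^ 2 : ℝ) : ℂ) * ((a : ℂ) * W.eval z / S.eval z) := by
      have h3 : S.eval z * (starRingEnd ℂ) (S.eval z) = ((‖S.eval z‖ ^ 2 : ℝ) : ℂ) := by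
        rw [Complex.mul_conj, Complex.normSq_eq_norm_sq]
      rw [← h3]
      field_simp
    rw [h2, Complex.re_ofReal_mul, mul_comm]
  intro z hz
  rw [key z hz.le]
  refine mul_nonneg ?_ (by positivity)
  have hd : DiffContOnCl ℂ (fun s : ℂ => Complex.exp (-((a : ℂ) * W.eval s / S.eval s)))
      (ball 0 1) := by
    have hcl : ∀ s ∈ closure (ball (0 : ℂ) 1), ‖s‖ ≤ 1 := by
      intro s hs
      rw [closure_ball _ one_ne_zero] at hs
      simpa using hs
    refine ⟨?_, ?_⟩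
    · intro s hs
      have hs1 : ‖s‖ < 1 := by simpa using hs
      refine DifferentiableAt.differentiableWithinAt ?_
      refine DifferentiableAt.cexp (DifferentiableAt.neg ?_)
      exact (W.differentiable.differentiableAt.const_mul _).div S.differentiable.differentiableAt
        (hS s hs1.le)
    · intro s hs
      refine ContinuousAt.continuousWithinAt ?_
      refine ContinuousAt.cexp (ContinuousAt.neg ?_)
      exact (continuousAt_const.mul W.continuous.continuousAt).div S.continuous.continuousAt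
        (hS s (hcl s hs))
  have h1 : ‖Complex.exp (-((a : ℂ) * W.eval z / S.eval z))‖ ≤ 1 := by
    refine Complex.norm_le_of_forall_mem_frontier_norm_le isBounded_ball hd ?_
      (subset_closure (by simpa using hz))
    intro s hs
    rw [frontier_ball _ one_ne_zero, mem_sphere_zero_iff_norm] at hs
    rw [Complex.norm_exp, Complex.neg_re, Real.exp_le_one_iff]
    have h2 := hc s hs
    rw [key s hs.le] at h2
    have h3 : 0 < ‖S.eval s‖ ^ 2 := pow_pos (norm_pos_iff.mpr (hS s hs.le)) 2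
    have := nonneg_of_mul_nonneg_left h2 h3
    linarith
  rw [Complex.norm_exp, Complex.neg_re, Real.exp_le_one_iff] at h1
  linarith

/-- The case `τ < 1`. -/
theorem below (hZ : ZcoS) {q f : ℤ[X]} (h : LDz q f) {t : ℝ} (ht0 : 0 ≤ t) (ht : t < 1) :
    ∃ (a : ℝ) (S W : ℂ[X]), a ≠ 0 ∧ |a| < 1 ∧
      cpz q + C (t : ℂ) * (X * cpz f) = (1 - C ((a : ℂ)⁻¹) * X) * S ∧
      S.natDegree ≤ (cpz q).natDegree + (cpz f).natDegree + 1 ∧ ZF S ∧
      X * W = (1 - X ^ 2) * S - (cpz q - C (t : ℂ) * (X * cpz f)) * (1 - C (a : ℂ) * X) ∧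
      ∀ z : ℂ, ‖z‖ < 1 → 0 ≤ ((a : ℂ) * W.eval z * (starRingEnd ℂ) (S.eval z)).re := by
  set V : ℂ[X] := cpz q + C (t : ℂ) * (X * cpz f) with hV
  have hVe : ∀ z : ℂ, V.eval z = (cpz q).eval z + t * (z * (cpz f).eval z) := by
    intro z
    simp [hV]
  have hn : nz V = 1 := by
    rw [hV, ← zco_aff hZ (cpz q) (C (t : ℂ) * (X * cpz f)) ?_, h.nzq]
    intro r hr0 hr1 z hz
    have h1 := ne_circ h (t := r * t) (mul_nonneg hr0 ht0) (by nlinarith) hz
    simpa [mul_assoc] using h1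
  have hVc : ∀ z : ℂ, ‖z‖ = 1 → V.eval z ≠ 0 := by
    intro z hz
    rw [hVe]
    exact ne_circ h ht0 ht hz
  have hV0 : V ≠ 0 := by
    intro h0
    exact hVc 1 (by simp) (by rw [h0, eval_zero])
  obtain ⟨b, hb⟩ := Multiset.card_eq_one.mp hn
  have hbm : b ∈ V.roots.filter (fun x => ‖x‖ < 1) := by
    rw [hb]; exact Multiset.mem_singleton_self b
  have hbr : V.eval b = 0 := isRoot_of_mem_roots (Multiset.mem_of_mem_filter hbm)
  have hb1 : ‖b‖ < 1 := (Multiset.mem_filter.mp hbm).2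
  have hbreal : (starRingEnd ℂ) b = b := by
    have h1 : V.eval ((starRingEnd ℂ) b) = 0 := by
      have h2 := congrArg (starRingEnd ℂ) hbr
      rw [hVe, map_zero, map_add, map_mul, map_mul, Complex.conj_ofReal, ← cpz_conj,
        ← cpz_conj] at h2
      rw [hVe]
      exact h2
    have h2 : (starRingEnd ℂ) b ∈ V.roots.filter (fun x => ‖x‖ < 1) := by
      rw [Multiset.mem_filter, mem_roots hV0]
      exact ⟨h1, by rw [RCLike.norm_conj]; exact hb1⟩
    rw [hb, Multiset.mem_singleton] at h2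
    exact h2
  obtain ⟨a, ha⟩ : ∃ a : ℝ, (a : ℂ) = b := ⟨b.re, Complex.conj_eq_iff_re.mp hbreal⟩
  subst ha
  have hq0 : ‖(cpz q).eval 0‖ = 1 := by
    rw [← coeff_zero_eq_eval_zero]
    unfold cpz
    rw [coeff_map]
    change ‖(Int.castRingHom ℂ (q.coeff 0) : ℂ)‖ = 1
    rw [eq_intCast, Complex.norm_intCast]
    exact_mod_cast h.q0
  have hVz : V.eval 0 = (cpz q).eval 0 := by rw [hVe]; simp
  have ha0 : (a : ℂ) ≠ 0 := by
    intro h0
    rw [h0, hVz] at hbr
    rw [hbr, norm_zero] at hq0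
    exact zero_ne_one hq0
  have ha0' : a ≠ 0 := by exact_mod_cast ha0
  have ha1 : |a| < 1 := by
    rw [Complex.norm_real, Real.norm_eq_abs] at hb1
    exact hb1
  obtain ⟨g, hg⟩ := dvd_iff_isRoot.mpr hbr
  have hg0 : g ≠ 0 := by
    rintro rfl
    exact hV0 (by rw [hg, mul_zero])
  have hgn : nz g = 0 := by
    have h1 := nz_mul' (p := X - C (a : ℂ)) (q := g) (by rw [← hg]; exact hV0)
    rw [← hg, hn, nz_XsubC hb1] at h1
    omega
  have hgz : ∀ z : ℂ, ‖z‖ ≤ 1 → g.eval z ≠ 0 := by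
    intro z hz
    rcases hz.lt_or_eq with h1 | h1
    · exact ZF_of_nz hg0 hgn z h1
    · intro h2
      apply hVc z h1
      rw [hg, eval_mul, h2, mul_zero]
  obtain ⟨S, hS⟩ : ∃ S : ℂ[X], S = C (-(a : ℂ)) * g := ⟨_, rfl⟩
  have hSe : ∀ z : ℂ, S.eval z = -(a : ℂ) * g.eval z := by
    intro z
    rw [hS]; simp
  have hSz : ∀ z : ℂ, ‖z‖ ≤ 1 → S.eval z ≠ 0 := by
    intro z hz
    rw [hSe]
    exact mul_ne_zero (neg_ne_zero.mpr ha0) (hgz z hz)
  have hVS : V = (1 - C ((a : ℂ)⁻¹) * X) * S := by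
    have h1 : (C ((a : ℂ)⁻¹) * C (a : ℂ) : ℂ[X]) = 1 := by
      rw [← C_mul, inv_mul_cancel₀ ha0, C_1]
    rw [hg, hS, C_neg]
    linear_combination (-(X * g)) * h1
  have hVSe : ∀ z : ℂ, V.eval z = (1 - (a : ℂ)⁻¹ * z) * S.eval z := by
    intro z
    have h1 := congrArg (eval z) hVS
    simpa using h1
  have hSd : S.natDegree ≤ (cpz q).natDegree + (cpz f).natDegree + 1 := by
    have h1 : S.natDegree ≤ g.natDegree := by
      rw [hS]; exact natDegree_C_mul_le _ _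
    have h2 : g.natDegree ≤ V.natDegree := by
      rw [hg, natDegree_mul (X_sub_C_ne_zero _) hg0]
      omega
    have h3 : V.natDegree ≤ (cpz q).natDegree + (cpz f).natDegree + 1 := by
      rw [hV]
      refine (natDegree_add_le _ _).trans (max_le (by omega) ?_)
      refine (natDegree_C_mul_le _ _).trans ?_
      refine natDegree_mul_le.trans ?_
      rw [natDegree_X]
      omega
    omega
  have hS0 : S.eval 0 = (cpz q).eval 0 := by
    rw [← hVz, hVSe]
    simp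
  obtain ⟨W, hW⟩ : ∃ W : ℂ[X], X * W = (1 - X ^ 2) * S -
      (cpz q - C (t : ℂ) * (X * cpz f)) * (1 - C (a : ℂ) * X) := by
    have h1 : ((1 - X ^ 2) * S - (cpz q - C (t : ℂ) * (X * cpz f)) * (1 - C (a : ℂ) * X)).eval 0
        = 0 := by
      simp only [eval_sub, eval_mul, eval_one, eval_pow, eval_X, eval_C]
      rw [hS0]
      ring
    obtain ⟨W, hW⟩ := dvd_iff_isRoot.mpr h1
    exact ⟨W, by rw [hW, C_0, sub_zero]⟩
  refine ⟨a, S, W, ha0', ha1, hVS, hSd, fun z hz => hSz z hz.le, hW, ?_⟩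
  apply minp S W hSz a
  intro z hz
  have hWe : z * W.eval z = (1 - z ^ 2) * S.eval z -
      ((cpz q).eval z - t * (z * (cpz f).eval z)) * (1 - a * z) := by
    have h1 := congrArg (eval z) hW
    simpa using h1
  have hci := circ_inv hz
  have hvc : (starRingEnd ℂ) (V.eval z) = (1 - (a : ℂ)⁻¹ * (starRingEnd ℂ) z) *
      (starRingEnd ℂ) (S.eval z) := by
    rw [hVSe, map_mul, map_sub, map_mul, map_inv₀, Complex.conj_ofReal, map_one]
  have hai : (a : ℂ) * (a : ℂ)⁻¹ = 1 := mul_inv_cancel₀ ha0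
  have h1 : (a : ℂ) * W.eval z * (starRingEnd ℂ) (S.eval z) =
      (a : ℂ) * ((starRingEnd ℂ) z - z) * (S.eval z * (starRingEnd ℂ) (S.eval z)) +
      (a : ℂ) ^ 2 * (((cpz q).eval z - t * (z * (cpz f).eval z)) *
        (starRingEnd ℂ) (V.eval z)) := by
    rw [hvc]
    have h2 : W.eval z = ((starRingEnd ℂ) z - z) * S.eval z -
        ((cpz q).eval z - t * (z * (cpz f).eval z)) * ((starRingEnd ℂ) z - a) := by
      have h3 : (starRingEnd ℂ) z * (z * W.eval z) = W.eval z := by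
        rw [← mul_assoc, mul_comm ((starRingEnd ℂ) z), hci, one_mul]
      rw [← h3, hWe]
      linear_combination (-(z * S.eval z) +
        a * ((cpz q).eval z - t * (z * (cpz f).eval z))) * hci
    rw [h2]
    linear_combination (a * (starRingEnd ℂ) z * (((cpz q).eval z - t * (z * (cpz f).eval z)) *
      (starRingEnd ℂ) (S.eval z))) * hai
  rw [h1, Complex.add_re]
  have h2 : ((a : ℂ) * ((starRingEnd ℂ) z - z) * (S.eval z * (starRingEnd ℂ) (S.eval z))).re = 0 := by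
    rw [Complex.mul_conj]
    simp only [Complex.mul_re, Complex.mul_im, Complex.sub_re, Complex.sub_im, Complex.conj_re,
      Complex.conj_im, Complex.ofReal_re, Complex.ofReal_im]
    ring
  have h3 : ((a : ℂ) ^ 2 * (((cpz q).eval z - t * (z * (cpz f).eval z)) *
        (starRingEnd ℂ) (V.eval z))).re =
      a ^ 2 * (‖(cpz q).eval z‖ ^ 2 - t ^ 2 * ‖(cpz f).eval z‖ ^ 2) := by
    rw [← Complex.ofReal_pow, Complex.re_ofReal_mul, hVe]
    congr 1
    have h4 : ‖z * (cpz f).eval z‖ ^ 2 = ‖(cpz f).eval z‖ ^ 2 := by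
      rw [norm_mul, hz, one_mul]
    rw [← h4]
    simp only [← Complex.normSq_eq_norm_sq, Complex.normSq_apply, Complex.add_re, Complex.add_im,
      Complex.sub_re, Complex.sub_im, Complex.mul_re, Complex.mul_im, Complex.conj_re,
      Complex.conj_im, Complex.ofReal_re, Complex.ofReal_im]
    ring
  rw [h2, h3, zero_add]
  refine mul_nonneg (sq_nonneg a) ?_
  have h4 := pow_le_pow_left₀ (norm_nonneg _) (h.le z hz) 2
  have h5 : t ^ 2 ≤ 1 := by nlinarith
  have h6 : 0 ≤ ‖(cpz f).eval z‖ ^ 2 := by positivity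
  nlinarith

/-- Inequalities between continuous functions extend to two more points. -/
theorem ext2 {F G : ℂ → ℝ} (hF : Continuous F) (hG : Continuous G) (a b : ℂ)
    (h : ∀ z : ℂ, ‖z‖ < 1 → z ≠ a → z ≠ b → F z ≤ G z) : ∀ z : ℂ, ‖z‖ < 1 → F z ≤ G z := by
  intro z hz
  have hfin : ({a, b} : Set ℂ).Countable := (Set.toFinite {a, b}).countable
  have hd : Dense ({a, b} : Set ℂ)ᶜ := hfin.dense_compl ℝ
  have h1 := hd.open_subset_closure_inter (isOpen_ball (x := (0 : ℂ)) (ε := 1))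
  have h2 : z ∈ closure (ball (0 : ℂ) 1 ∩ ({a, b} : Set ℂ)ᶜ) := h1 (by simpa using hz)
  have h3 : closure (ball (0 : ℂ) 1 ∩ ({a, b} : Set ℂ)ᶜ) ⊆ {w | F w ≤ G w} := by
    refine closure_minimal ?_ (isClosed_le hF hG)
    rintro w ⟨hw1, hw2⟩
    have hw1' : ‖w‖ < 1 := by simpa using hw1
    simp only [Set.mem_compl_iff, Set.mem_insert_iff, Set.mem_singleton_iff, not_or] at hw2
    exact h w hw1' hw2.1 hw2.2
  exact h3 h2

/-- Row SF_CZA. -/
theorem sfcza (hZ : ZcoS) (hA : A3bS) : CzaS := by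
  intro q f h
  -- the sequence
  have hτ0 : ∀ n : ℕ, (0 : ℝ) ≤ 1 - 1 / ((n : ℝ) + 1) := by
    intro n
    have h1 : (0 : ℝ) < (n : ℝ) + 1 := by positivity
    have : 1 / ((n : ℝ) + 1) ≤ 1 := by
      rw [div_le_one h1]
      have : (0 : ℝ) ≤ n := Nat.cast_nonneg n
      linarith
    linarith
  have hτ1 : ∀ n : ℕ, 1 - 1 / ((n : ℝ) + 1) < 1 := by
    intro n
    have h1 : (0 : ℝ) < 1 / ((n : ℝ) + 1) := by positivity
    linarith
  have hτt : Tendsto (fun n : ℕ => 1 - 1 / ((n : ℝ) + 1)) atTop (𝓝 1) := by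
    have h1 := tendsto_one_div_add_atTop_nhds_zero_nat (𝕜 := ℝ)
    have h2 := (tendsto_const_nhds (x := (1 : ℝ))).sub h1
    simpa using h2
  choose a S W ha0 ha1 hV hdeg hzf hW hre using fun n : ℕ => below hZ h (hτ0 n) (hτ1 n)
  have hmem : ∀ n, a n ∈ Set.Icc (-1 : ℝ) 1 := by
    intro n
    have := abs_lt.mp (ha1 n)
    exact ⟨this.1.le, this.2.le⟩
  obtain ⟨α, hαm, φ, hφ, hlim⟩ := isCompact_Icc.tendsto_subseq hmem
  have hlimc : Tendsto (fun n => ((a (φ n) : ℝ) : ℂ)) atTop (𝓝 (α : ℂ)) :=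
    (Complex.continuous_ofReal.tendsto α).comp hlim
  have hτφ : Tendsto (fun n => ((1 - 1 / ((φ n : ℝ) + 1) : ℝ) : ℂ)) atTop (𝓝 (1 : ℂ)) := by
    have h1 := (Complex.continuous_ofReal.tendsto 1).comp (hτt.comp hφ.tendsto_atTop)
    rw [Complex.ofReal_one] at h1
    exact h1
  have hVe : ∀ (n : ℕ) (z : ℂ), (cpz q).eval z + ((1 - 1 / ((n : ℝ) + 1) : ℝ) : ℂ) *
      (z * (cpz f).eval z) = (1 - ((a n : ℝ) : ℂ)⁻¹ * z) * (S n).eval z := by
    intro n z
    have h1 := congrArg (eval z) (hV n)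
    simpa using h1
  have hcp : ∀ z : ℂ, (cpz (q + X * f)).eval z = (cpz q).eval z + z * (cpz f).eval z := by
    intro z
    simp [cpz]
  have hcm : ∀ z : ℂ, (cpz (q - X * f)).eval z = (cpz q).eval z - z * (cpz f).eval z := by
    intro z
    simp [cpz]
  have hq0 : ‖(cpz q).eval 0‖ = 1 := by
    rw [← coeff_zero_eq_eval_zero]
    unfold cpz
    rw [coeff_map]
    change ‖(Int.castRingHom ℂ (q.coeff 0) : ℂ)‖ = 1
    rw [eq_intCast, Complex.norm_intCast]
    exact_mod_cast h.q0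
  -- the zero
  have hroot : (cpz (q + X * f)).eval (α : ℂ) = 0 := by
    rw [hcp]
    have h1 : ∀ n : ℕ, (cpz q).eval ((a (φ n) : ℝ) : ℂ) +
        ((1 - 1 / ((φ n : ℝ) + 1) : ℝ) : ℂ) *
          (((a (φ n) : ℝ) : ℂ) * (cpz f).eval ((a (φ n) : ℝ) : ℂ)) = 0 := by
      intro n
      rw [hVe, inv_mul_cancel₀ (by exact_mod_cast ha0 (φ n)), sub_self, zero_mul]
    have h2 : Tendsto (fun n : ℕ => (cpz q).eval ((a (φ n) : ℝ) : ℂ) +
        ((1 - 1 / ((φ n : ℝ) + 1) : ℝ) : ℂ) *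
          (((a (φ n) : ℝ) : ℂ) * (cpz f).eval ((a (φ n) : ℝ) : ℂ))) atTop
        (𝓝 ((cpz q).eval (α : ℂ) + 1 * ((α : ℂ) * (cpz f).eval (α : ℂ)))) :=
      (((cpz q).continuous.tendsto _).comp hlimc).add
        (hτφ.mul (hlimc.mul (((cpz f).continuous.tendsto _).comp hlimc)))
    have h3 := tendsto_nhds_unique h2 (by simp only [h1]; exact tendsto_const_nhds)
    rw [one_mul] at h3
    exact h3
  have hα0 : α ≠ 0 := by
    intro h0
    rw [h0, hcp] at hroot
    simp only [Complex.ofReal_zero, zero_mul, add_zero] at hroot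
    rw [hroot, norm_zero] at hq0
    exact zero_ne_one hq0
  have hα0c : (α : ℂ) ≠ 0 := by exact_mod_cast hα0
  obtain ⟨g, hg⟩ := dvd_iff_isRoot.mpr hroot
  obtain ⟨s, hs⟩ : ∃ s : ℂ[X], s = C (-(α : ℂ)) * g := ⟨_, rfl⟩
  have hvs : cpz (q + X * f) = (1 - C ((α : ℂ)⁻¹) * X) * s := by
    have h1 : (C ((α : ℂ)⁻¹) * C (α : ℂ) : ℂ[X]) = 1 := by
      rw [← C_mul, inv_mul_cancel₀ hα0c, C_1]
    rw [hg, hs, C_neg]
    linear_combination (-(X * g)) * h1
  have hvse : ∀ z : ℂ, (cpz q).eval z + z * (cpz f).eval z = (1 - (α : ℂ)⁻¹ * z) * s.eval z := by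
    intro z
    rw [← hcp]
    have h1 := congrArg (eval z) hvs
    simpa using h1
  have hinv : Tendsto (fun n => (((a (φ n) : ℝ) : ℂ))⁻¹) atTop (𝓝 ((α : ℂ)⁻¹)) :=
    hlimc.inv₀ hα0c
  -- pointwise limits
  have hSlim : ∀ z : ℂ, z ≠ α → Tendsto (fun n => (S (φ n)).eval z) atTop (𝓝 (s.eval z)) := by
    intro z hz
    have hne : 1 - (α : ℂ)⁻¹ * z ≠ 0 := by
      intro h0
      apply hz
      have h1 : (α : ℂ) * (1 - (α : ℂ)⁻¹ * z) = α - z := by
        rw [mul_sub, mul_one, ← mul_assoc, mul_inv_cancel₀ hα0c, one_mul]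
      rw [h0, mul_zero] at h1
      linear_combination h1
    have h1 : Tendsto (fun n => 1 - (((a (φ n) : ℝ) : ℂ))⁻¹ * z) atTop (𝓝 (1 - (α : ℂ)⁻¹ * z)) :=
      tendsto_const_nhds.sub (hinv.mul tendsto_const_nhds)
    have h2 : Tendsto (fun n => ((cpz q).eval z + ((1 - 1 / ((φ n : ℝ) + 1) : ℝ) : ℂ) *
        (z * (cpz f).eval z)) / (1 - (((a (φ n) : ℝ) : ℂ))⁻¹ * z)) atTop
        (𝓝 (((cpz q).eval z + 1 * (z * (cpz f).eval z)) / (1 - (α : ℂ)⁻¹ * z))) :=
      (tendsto_const_nhds.add (hτφ.mul tendsto_const_nhds)).div h1 hne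
    have h3 : ((cpz q).eval z + 1 * (z * (cpz f).eval z)) / (1 - (α : ℂ)⁻¹ * z) = s.eval z := by
      rw [one_mul, hvse, mul_div_cancel_left₀ _ hne]
    rw [h3] at h2
    refine h2.congr' ?_
    filter_upwards [h1.eventually_ne hne] with n hn
    rw [hVe, mul_div_cancel_left₀ _ hn]
  -- the zero-free factor
  have hS0 : ∀ n, ‖(S n).coeff 0‖ = 1 := by
    intro n
    rw [coeff_zero_eq_eval_zero]
    have h1 := hVe n 0
    simp only [zero_mul, mul_zero, add_zero, sub_zero, one_mul] at h1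
    rw [← h1, hq0]
  have hzfs : ZF s := by
    have h1 : ∀ z : ℂ, ‖z‖ < 1 →
        (1 - ‖z‖) ^ ((cpz q).natDegree + (cpz f).natDegree + 1) ≤ ‖s.eval z‖ := by
      refine ext2 ((continuous_const.sub continuous_norm).pow _) s.continuous.norm
        (α : ℂ) (α : ℂ) ?_
      intro z hz hne _
      refine ge_of_tendsto (hSlim z hne).norm (Eventually.of_forall fun n => ?_)
      have h2 := hA (S (φ n)) _ (hdeg (φ n)) (hzf (φ n)) z hz.le
      rw [hS0, one_mul] at h2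
      exact h2
    intro z hz h0
    have h2 := h1 z hz
    rw [h0, norm_zero] at h2
    have h3 : 0 < (1 - ‖z‖) ^ ((cpz q).natDegree + (cpz f).natDegree + 1) :=
      pow_pos (by linarith) _
    linarith
  have hs0 : s.eval 0 = (cpz q).eval 0 := by
    have h1 := hvse 0
    simp only [zero_mul, mul_zero, add_zero, sub_zero, one_mul] at h1
    exact h1.symm
  obtain ⟨U, hU⟩ : ∃ U : ℂ[X], X * U = (1 - X ^ 2) * s -
      cpz (q - X * f) * (1 - C (α : ℂ) * X) := by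
    have h1 : ((1 - X ^ 2) * s - cpz (q - X * f) * (1 - C (α : ℂ) * X)).eval 0 = 0 := by
      simp only [eval_sub, eval_mul, eval_one, eval_pow, eval_X, eval_C]
      rw [hs0, hcm]
      ring
    obtain ⟨W, hW⟩ := dvd_iff_isRoot.mpr h1
    exact ⟨W, by rw [hW, C_0, sub_zero]⟩
  have hUe : ∀ z : ℂ, z * U.eval z = (1 - z ^ 2) * s.eval z -
      ((cpz q).eval z - z * (cpz f).eval z) * (1 - α * z) := by
    intro z
    have h1 := congrArg (eval z) hU
    simp only [eval_mul, eval_X, eval_sub, eval_one, eval_pow, eval_C] at h1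
    rw [hcm] at h1
    exact h1
  have hWe : ∀ (n : ℕ) (z : ℂ), z * (W n).eval z = (1 - z ^ 2) * (S n).eval z -
      ((cpz q).eval z - ((1 - 1 / ((n : ℝ) + 1) : ℝ) : ℂ) * (z * (cpz f).eval z)) *
        (1 - ((a n : ℝ) : ℂ) * z) := by
    intro n z
    have h1 := congrArg (eval z) (hW n)
    simpa using h1
  have hre' : ∀ z : ℂ, ‖z‖ < 1 → 0 ≤ ((α : ℂ) * U.eval z * (starRingEnd ℂ) (s.eval z)).re := by
    refine ext2 continuous_const (Complex.continuous_re.comp
      ((continuous_const.mul U.continuous).mul (Complex.continuous_conj.comp s.continuous)))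
      (α : ℂ) 0 ?_
    intro z hz hne hz0
    have h1 : Tendsto (fun n => ((1 - z ^ 2) * (S (φ n)).eval z -
        ((cpz q).eval z - ((1 - 1 / ((φ n : ℝ) + 1) : ℝ) : ℂ) * (z * (cpz f).eval z)) *
        (1 - ((a (φ n) : ℝ) : ℂ) * z)) / z) atTop
        (𝓝 (((1 - z ^ 2) * s.eval z - ((cpz q).eval z - 1 * (z * (cpz f).eval z)) *
        (1 - (α : ℂ) * z)) / z)) :=
      ((tendsto_const_nhds.mul (hSlim z hne)).sub
        ((tendsto_const_nhds.sub (hτφ.mul tendsto_const_nhds)).mul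
          (tendsto_const_nhds.sub (hlimc.mul tendsto_const_nhds)))).div_const z
    have h2 : ((1 - z ^ 2) * s.eval z - ((cpz q).eval z - 1 * (z * (cpz f).eval z)) *
        (1 - (α : ℂ) * z)) / z = U.eval z := by
      rw [one_mul, ← hUe, mul_div_cancel_left₀ _ hz0]
    rw [h2] at h1
    have h3 : (fun n => ((1 - z ^ 2) * (S (φ n)).eval z -
        ((cpz q).eval z - ((1 - 1 / ((φ n : ℝ) + 1) : ℝ) : ℂ) * (z * (cpz f).eval z)) *
        (1 - ((a (φ n) : ℝ) : ℂ) * z)) / z) = fun n => (W (φ n)).eval z := by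
      funext n
      rw [← hWe, mul_div_cancel_left₀ _ hz0]
    rw [h3] at h1
    have h4 : Tendsto (fun n => ((((a (φ n) : ℝ) : ℂ)) * (W (φ n)).eval z *
        (starRingEnd ℂ) ((S (φ n)).eval z)).re) atTop
        (𝓝 ((α : ℂ) * U.eval z * (starRingEnd ℂ) (s.eval z)).re) :=
      (Complex.continuous_re.tendsto _).comp ((hlimc.mul h1).mul
        ((Complex.continuous_conj.tendsto _).comp (hSlim z hne)))
    exact ge_of_tendsto h4 (Eventually.of_forall fun n => hre (φ n) z hz)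
  refine ⟨α⁻¹, s, U, ?_, ?_, hzfs, ?_, ?_⟩
  · rw [abs_inv]
    refine (one_le_inv₀ (abs_pos.mpr hα0)).mpr (abs_le.mpr ⟨hαm.1, hαm.2⟩)
  · rw [hvs, Complex.ofReal_inv]
  · rw [inv_inv]
    exact hU
  · rw [inv_inv]
    exact hre'

end Pool.Agent.B5.H98.Cza
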